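import Pool.Agent.MP_6aeaf9_an.H21.Lift

/-! Equation A has a nontrivial radial compactly supported solution of class C2 in every
dimension. -/

open MeasureTheory

theorem Pool.Agent.Results.MP_6aeaf9_an.EquationA.result :
    ∀ N : ℕ, 1 ≤ N → ∃ f : EuclideanSpace ℝ (Fin N) → ℝ, ContDiff ℝ 2 f ∧ HasCompactSupport f ∧
      f ≠ 0 ∧ (∀ x y, ‖x‖ = ‖y‖ → f x = f y) ∧
      ∀ φ : EuclideanSpace ℝ (Fin N) → ℝ, ContDiff ℝ (⊤ : ℕ∞) φ → HasCompactSupport φ →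
        -(∫ x, |Laplacian.laplacian f x| * Laplacian.laplacian f x * Laplacian.laplacian φ x) +
          (∫ x, (f x ^ 2 - f x) * φ x) = 0 := by
  intro N hN
  obtain ⟨m, rfl⟩ : ∃ m, N = m + 1 := ⟨N - 1, by omega⟩
  obtain ⟨f, h1, h2, h3, h4, h5⟩ := Pool.Agent.MP_6aeaf9_an.H21.main m
  exact ⟨f, h1, h2, h3, h4, fun φ hφ hc => h5 φ (by exact_mod_cast contDiff_infty.1 hφ 2) hc⟩
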