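import Pool.Agent.MP_6aeaf9_an.H53.Glue

/-! Equation B has a nontrivial even compactly supported solution of class C3. -/

open MeasureTheory Pool.Agent.MP_6aeaf9_an.H53

theorem Pool.Agent.Results.MP_6aeaf9_an.EquationB.result :
    ∃ f : ℝ → ℝ, ContDiff ℝ 3 f ∧ HasCompactSupport f ∧ f ≠ 0 ∧ (∀ x, f (-x) = f x) ∧
      ∀ φ : ℝ → ℝ, ContDiff ℝ (⊤ : ℕ∞) φ → HasCompactSupport φ →
        (∫ x, |iteratedDeriv 3 f x| * iteratedDeriv 3 f x * deriv φ x) +
          (∫ x, (f x ^ 2 - f x) * φ x) = 0 := by
  obtain ⟨T, F, P, Q, R, G, cR, dF, dP, dQ, hG, dG, F0, hev, hfar⟩ := full_profile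
  have e1 : deriv F = P := funext fun x => (dF x).deriv
  have e2 : deriv P = Q := funext fun x => (dP x).deriv
  have e3 : deriv Q = R := funext fun x => (dQ x).deriv
  have e4 : iteratedDeriv 3 F = R := by
    rw [iteratedDeriv_succ, iteratedDeriv_succ, iteratedDeriv_one, e1, e2, e3]
  have cF : Continuous F := continuous_iff_continuousAt.mpr fun x => (dF x).continuousAt
  have cG : Continuous G := continuous_iff_continuousAt.mpr fun x => (dG x).continuousAt
  refine ⟨F, ?_, ?_, ?_, hev, fun φ hφ hc => ?_⟩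
  · have c1 : ContDiff ℝ 1 Q :=
      contDiff_one_iff_deriv.mpr ⟨fun x => (dQ x).differentiableAt, e3 ▸ cR⟩
    have c2 : ContDiff ℝ (1 + 1) P :=
      contDiff_succ_iff_deriv.mpr ⟨fun x => (dP x).differentiableAt, by simp, e2 ▸ c1⟩
    have c3 : ContDiff ℝ (2 + 1) F :=
      contDiff_succ_iff_deriv.mpr ⟨fun x => (dF x).differentiableAt, by simp, e1 ▸ c2⟩
    exact c3
  · refine HasCompactSupport.intro (isCompact_Icc (a := -T) (b := T)) fun x hx => hfar x ?_
    by_contra h
    exact hx (abs_le.mp (not_lt.mp h))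
  · intro h
    rw [h] at F0
    norm_num at F0
  · simp_rw [e4, hG]
    have hφ1 : ContDiff ℝ 1 φ := hφ.of_le (by exact_mod_cast le_top)
    have cφ : Continuous φ := hφ1.continuous
    have cφ' : Continuous (deriv φ) := hφ1.continuous_deriv le_rfl
    have i1 : Integrable (fun x => G x * deriv φ x) :=
      (cG.mul cφ').integrable_of_hasCompactSupport hc.deriv.mul_left
    have i2 : Integrable (fun x => (F x ^ 2 - F x) * φ x) :=
      (((cF.pow 2).sub cF).mul cφ).integrable_of_hasCompactSupport hc.mul_left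
    have i3 : Integrable (fun x => G x * φ x) :=
      (cG.mul cφ).integrable_of_hasCompactSupport hc.mul_left
    rw [← integral_add i1 i2]
    refine integral_eq_zero_of_hasDerivAt_of_integrable (f := fun x => G x * φ x) (fun x => ?_)
      (i1.add i2) i3
    exact ((dG x).fun_mul (hφ1.differentiable one_ne_zero x).hasDerivAt).congr_deriv (by ring)
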